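import Pool.Agent.MP_8be872_ag.H63.SpecD
import Pool.Agent.MP_8be872_ag.H63.ApiC

/-! The linear part of the differential on the slice. -/

namespace Pool.Agent.MP_8be872_ag.H36

open Finset H38 H56 H63 MvPolynomial
open TrivSqZeroExt (inl inr fst snd inr_mul_inr inr_sum inr_smul fst_mul fst_add snd_add fst_sub
  snd_sub fst_sum snd_sum fst_neg snd_neg)
open scoped Matrix

set_option linter.unusedSectionVars false

section Gen

variable {E O : Type} [Fintype E] [Fintype O] [DecidableEq E] [DecidableEq O]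

/-- The constant coefficient. -/
noncomputable def cf : Sp E O →ₗ[ℂ] ℂ := lcoeff ℂ 0 ∘ₗ LinearMap.proj ∅

theorem cf_apply (x : Sp E O) : cf x = coeff 0 (x ∅) := rfl

theorem cf_one : cf (one : Sp E O) = 1 := by simp [cf_apply, one]

theorem cf_pos {x : Sp E O} (h : x ∈ mono fun μ => 1 ≤ ∑ g, μ g) : cf x = 0 := by
  by_contra h1
  have := mem_mono.1 h ∅ 0 h1
  rw [ex_zero] at this
  simp at this

theorem deg_add (a b : E ⊕ O → ℕ) : ∑ g, (a + b) g = ∑ g, a g + ∑ g, b g := by
  simp only [Pi.add_apply, sum_add_distrib]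

theorem deg_single (g : E ⊕ O) : ∑ g', (Pi.single g 1 : E ⊕ O → ℕ) g' = 1 := by
  simp [Pi.single_apply]

theorem dr_gn (g g' : E ⊕ O) : dr g' (gn g (one : Sp E O)) = if g' = g then one else 0 := by
  rw [← Module.End.mul_apply, dr_mul_gn, LinearMap.add_apply, LinearMap.smul_apply,
    Module.End.mul_apply, dr_one, map_zero, smul_zero, zero_add]
  split_ifs <;> rfl

theorem cf_dr_two {x : Sp E O} (h : x ∈ mono fun μ => 2 ≤ ∑ g, μ g) (g : E ⊕ O) :
    cf (dr g x) = 0 :=
  cf_pos (dr_mem g h fun μ hμ => by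
    rw [deg_add, deg_single] at hμ
    omega)

theorem lin_add (u u' : E ⊕ O → ℂ) : lin (u + u') = lin u + lin u' := by
  simp only [lin, Pi.add_apply, add_smul, sum_add_distrib]

theorem lin_smul (a : ℂ) (u : E ⊕ O → ℂ) : lin (a • u) = a • lin u := by
  simp only [lin, Pi.smul_apply, smul_eq_mul, mul_smul, smul_sum]

theorem lin_mem (u : E ⊕ O → ℂ) : lin u ∈ words fun μ => 1 ≤ ∑ g, μ g :=
  Submodule.sum_mem _ fun g _ => Submodule.smul_mem _ _ (gn_mem_words (deg_single g).ge)

theorem two_mem (g h : E ⊕ O) (l : List (E ⊕ O)) :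
    ((g :: h :: l).map gn).prod ∈ words fun μ : E ⊕ O → ℕ => 2 ≤ ∑ g, μ g :=
  word_memB _ (by
    rw [count_cons', count_cons', deg_add, deg_add, deg_single, deg_single]
    omega)

/-- Constant, linear and higher part of a multiplication operator. -/
theorem expand {P : (E ⊕ O → ℕ) → Prop} {m : Module.End ℂ (Sp E O)} (hm : m ∈ words P) :
    m - cf (m one) • 1 - lin (fun g => cf (dr g (m one))) ∈ words fun μ => 2 ≤ ∑ g, μ g := by
  induction hm using Submodule.span_induction with
  | mem m hm =>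
    obtain ⟨l, -, rfl⟩ := hm
    rcases l with _ | ⟨g, _ | ⟨h, l⟩⟩
    · simp [cf_one, dr_one, lin]
    · have h1 : cf (gn g (one : Sp E O)) = 0 :=
        cf_pos (words_one_mem (gn_mem_words (deg_single g).ge))
      have h2 : lin (fun g' => cf (dr g' (gn g (one : Sp E O)))) = gn g := by
        simp only [lin, dr_gn, apply_ite cf, cf_one, map_zero, ite_smul, one_smul, zero_smul,
          sum_ite_eq', mem_univ, if_true]
      simp [h1, h2]
    · have h0 := words_one_mem (two_mem g h l)
      have h1 := cf_pos (mono_le (fun μ hμ => le_trans one_le_two hμ) h0)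
      simp only [h1, cf_dr_two h0, lin, zero_smul, sum_const_zero, sub_zero]
      exact two_mem g h l
  | zero => simp [lin]
  | add m m' _ _ h h' =>
    have := Submodule.add_mem _ h h'
    simp only [LinearMap.add_apply, map_add, add_smul]
    rw [show (fun g => cf (dr g (m one)) + cf (dr g (m' one))) =
      (fun g => cf (dr g (m one))) + fun g => cf (dr g (m' one)) from rfl, lin_add]
    rwa [show m + m' - (cf (m one) • 1 + cf (m' one) • 1) -
      (lin (fun g => cf (dr g (m one))) + lin fun g => cf (dr g (m' one))) =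
      m - cf (m one) • 1 - lin (fun g => cf (dr g (m one))) +
        (m' - cf (m' one) • 1 - lin fun g => cf (dr g (m' one))) by abel]
  | smul a m _ h =>
    have := Submodule.smul_mem _ a h
    simp only [LinearMap.smul_apply, map_smul]
    rw [show (fun g => a • cf (dr g (m one))) = a • fun g => cf (dr g (m one)) from rfl, lin_smul,
      smul_assoc]
    rwa [smul_sub, smul_sub] at this

theorem rho_comm (y : E ⊕ O → ℂ) (g h : E ⊕ O) : (inr (y g) * inr (y h) : DualNumber ℂ) =
    sg (g.isRight && h.isRight) • (inr (y h) * inr (y g)) := by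
  rw [inr_mul_inr, inr_mul_inr, smul_zero]

/-- Evaluation on a tangent vector at the origin. -/
theorem lift_dual (y : E ⊕ O → ℂ) {P : (E ⊕ O → ℕ) → Prop} {m : Module.End ℂ (Sp E O)}
    (hm : m ∈ words P) : lift (fun g => (inr (y g) : DualNumber ℂ)) (m one) =
      inl (cf (m one)) + inr (∑ g, cf (dr g (m one)) * y g) := by
  have h0 : ∀ r ∈ words fun μ : E ⊕ O → ℕ => 2 ≤ ∑ g, μ g,
      lift (fun g => (inr (y g) : DualNumber ℂ)) (r one) = 0 := by
    intro r hr
    refine words_le_of (C := LinearMap.ker (lift (fun g => (inr (y g) : DualNumber ℂ)) ∘ₗ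
      LinearMap.applyₗ one)) (fun l hl => ?_) hr
    rw [LinearMap.mem_ker, LinearMap.comp_apply, LinearMap.applyₗ_apply_apply,
      apiC_word (rho_comm y)]
    rcases l with _ | ⟨g, _ | ⟨h, l⟩⟩
    · simp at hl
    · rw [count_cons', deg_add, deg_single] at hl
      simp at hl
    · rw [List.map_cons, List.map_cons, List.prod_cons, List.prod_cons, ← mul_assoc (inr (y g)),
        inr_mul_inr, zero_mul, zero_mul]
  have h1 := h0 _ (expand hm)
  rw [LinearMap.sub_apply, LinearMap.sub_apply, map_sub, map_sub, sub_sub, sub_eq_zero] at h1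
  rw [h1, LinearMap.smul_apply, map_smul, Module.End.one_apply, lift_one, lin,
    LinearMap.sum_apply, map_sum, inr_sum]
  congr 1
  · ext <;> simp
  · refine sum_congr rfl fun g _ => ?_
    rw [LinearMap.smul_apply, map_smul, lift_gn (rho_comm y), lift_one, mul_one, ← inr_smul,
      smul_eq_mul]

theorem vf_gn_one (δ : E ⊕ O → Module.End ℂ (Sp E O)) (g : E ⊕ O) :
    vf δ (gn g one) = δ g one := by
  simp only [vf, LinearMap.sum_apply, Module.End.mul_apply, dr_gn, apply_ite (δ _), map_zero,
    sum_ite_eq', mem_univ, if_true]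

/-- The linear part of a differential without constant terms squares to zero. -/
theorem lin_sq {δ : E ⊕ O → Module.End ℂ (Sp E O)} (hsq : vf δ * vf δ = 0)
    (h : ∀ g, δ g - lin (fun g' => cf (dr g' (δ g one))) ∈ words fun μ => 2 ≤ ∑ g, μ g)
    (g g'' : E ⊕ O) : ∑ g', cf (dr g' (δ g one)) * cf (dr g'' (δ g' one)) = 0 := by
  have h1 : ∀ g, δ g ∈ words fun μ => 1 ≤ ∑ g, μ g := fun g => by
    have := Submodule.add_mem _ (words_le (fun μ hμ => le_trans one_le_two hμ) (h g))
      (lin_mem fun g' => cf (dr g' (δ g one)))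
    rwa [sub_add_cancel] at this
  have h2 : vf δ (δ g one) = 0 := by
    rw [← vf_gn_one, ← Module.End.mul_apply, hsq, LinearMap.zero_apply]
  have h3 := cf_dr_two (vf_mem (P' := fun μ => 2 ≤ ∑ g, μ g) h1 (words_one_mem (h g))
    fun g μ ν a b => by
      rw [deg_add, deg_single] at a
      rw [deg_add]
      omega) g''
  rw [LinearMap.sub_apply, map_sub, h2, zero_sub, map_neg, map_neg, neg_eq_zero, lin,
    LinearMap.sum_apply, map_sum, map_sum, map_sum] at h3
  simpa only [LinearMap.smul_apply, map_smul, vf_gn_one, smul_eq_mul] using h3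

end Gen

variable {Q : Quiv} {w v D : Fin Q.n → ℕ}

theorem YS_map {A A' : Type} [Ring A] [Algebra ℂ A] [Ring A'] [Algebra ℂ A'] (h : A →ₐ[ℂ] A')
    (lab : Bas Q D → Bas Q v × ℕ) (y : Kd Q → Nb Q w v D → Nb Q w v D → A) (k : Kd Q) :
    (YS lab y k).map h = YS lab (fun k p q => h (y k p q)) k := by
  classical
  have hb : ∀ k, h.mapMatrix (Matrix.of fun p q => if shS lab k p q then y k p q else 0) =
      Matrix.of fun p q => if shS lab k p q then h (y k p q) else 0 := fun k => by
    ext p q
    simp only [AlgHom.mapMatrix_apply, Matrix.map_apply, Matrix.of_apply, apply_ite h, map_zero]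
  have ha : h.mapMatrix ((al0 (w := w) lab).map (algebraMap ℂ A)) =
      (al0 lab).map (algebraMap ℂ A') := by
    ext p q
    simp only [AlgHom.mapMatrix_apply, Matrix.map_apply, AlgHom.commutes]
  have ht : h.mapMatrix ((al0 (w := w) lab).map (algebraMap ℂ A))ᵀ =
      ((al0 lab).map (algebraMap ℂ A'))ᵀ := by
    ext p q
    simp only [AlgHom.mapMatrix_apply, Matrix.map_apply, AlgHom.commutes, Matrix.transpose_apply]
  change h.mapMatrix (YS lab y k) = _
  simp only [YS]
  split_ifs
  · rw [map_add, ha]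
    exact congrArg _ (hb _)
  · rw [map_sum]
    refine sum_congr rfl fun i _ => ?_
    rw [map_mul, map_mul, map_pow, map_pow, map_add, ha, ht]
    exact congrArg₂ _ (congrArg _ (hb _)) (congrArg (fun t => (_ + t) ^ i) (hb _))
  · exact hb _

theorem Phi_map (hD : DSqStmt) {A A' : Type} [Ring A] [Algebra ℂ A] [Ring A'] [Algebra ℂ A']
    (h : A →ₐ[ℂ] A') (lab : Bas Q D → Bas Q v × ℕ) (y : Kd Q → Nb Q w v D → Nb Q w v D → A)
    (k : Kd Q) (p q : Nb Q w v D) :
    h (Phi Q (YS lab y) k p q) = Phi Q (YS lab fun k p q => h (y k p q)) k p q := by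
  have h1 := congrFun (congrFun (hD.1 Q _ _ _ h.toRingHom (YS lab y) k) p) q
  simpa only [AlgHom.toRingHom_eq_coe, RingHom.coe_coe, YS_map, Matrix.map_apply] using h1

/-- The matrices of a tangent vector at the origin of the slice. -/
noncomputable def Zd (lab : Bas Q D → Bas Q v × ℕ) (y : Kd Q → Nb Q w v D → Nb Q w v D → ℂ)
    (k : Kd Q) : DualNumber (Matrix (Nb Q w v D) (Nb Q w v D) ℂ) :=
  Matrix.dualNumberEquiv (YS lab (fun k p q => (inr (y k p q) : DualNumber ℂ)) k)

open Classical in
theorem Zd_spec (lab : Bas Q D → Bas Q v × ℕ) (y : Kd Q → Nb Q w v D → Nb Q w v D → ℂ)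
    (hy : ∀ p q, y ka p q = 0) (k : Kd Q) :
    fst (Zd lab y k) = (if k = ka then al0 lab else 0) ∧ snd (Zd lab y k) =
      if k = ka then 0 else YS lab (fun k p q => if shS lab k p q then y k p q else 0) k := by
  have hb : ∀ k, Matrix.dualNumberEquiv (Matrix.of fun p q =>
      if shS lab k p q then (inr (y k p q) : DualNumber ℂ) else 0) =
      inr (Matrix.of fun p q => if shS lab k p q then y k p q else 0) := fun k => by
    ext p q <;> by_cases h : shS lab k p q <;> simp [h]
  have hc : ∀ M : Matrix (Nb Q w v D) (Nb Q w v D) ℂ,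
      Matrix.dualNumberEquiv (M.map (algebraMap ℂ (DualNumber ℂ))) = inl M := fun M => by
    ext p q <;> simp [TrivSqZeroExt.algebraMap_eq_inl]
  have h0 : (Matrix.of fun p q => if shS lab ka p q then y ka p q else 0) = 0 := by
    ext p q
    simp [hy]
  have ha : Matrix.dualNumberEquiv ((al0 lab).map (algebraMap ℂ (DualNumber ℂ)) +
      Matrix.of fun p q => if shS lab ka p q then (inr (y ka p q) : DualNumber ℂ) else 0) =
      inl (al0 lab) := by
    rw [map_add, hc, hb, h0, TrivSqZeroExt.inr_zero, add_zero]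
  simp only [Zd, YS]
  split_ifs
  · exact ⟨congrArg fst ha, congrArg snd ha⟩
  · have e : ∀ i : ℕ, Matrix.dualNumberEquiv
        (((al0 lab).map (algebraMap ℂ (DualNumber ℂ)))ᵀ ^ i * (Matrix.of fun p q =>
          if shS lab kc p q then (inr (y kc p q) : DualNumber ℂ) else 0) *
        ((al0 lab).map (algebraMap ℂ (DualNumber ℂ)) + Matrix.of fun p q =>
          if shS lab ka p q then (inr (y ka p q) : DualNumber ℂ) else 0) ^ i) =
        inr (((al0 lab).map (algebraMap ℂ ℂ))ᵀ ^ i *
          (Matrix.of fun p q => if shS lab kc p q then y kc p q else 0) *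
        ((al0 lab).map (algebraMap ℂ ℂ) +
          Matrix.of fun p q => if shS lab ka p q then y ka p q else 0) ^ i) := fun i => by
      rw [map_mul, map_mul, map_pow, map_pow, ha, hb, ← Matrix.transpose_map, hc, h0, add_zero,
        TrivSqZeroExt.inl_pow, TrivSqZeroExt.inl_pow, TrivSqZeroExt.inl_mul_inr,
        TrivSqZeroExt.inr_mul_inl]
      rfl
    rw [map_sum]
    exact ⟨(fst_sum _ _).trans (sum_eq_zero fun i _ => congrArg fst (e i)),
      (snd_sum _ _).trans (sum_congr rfl fun i _ => congrArg snd (e i))⟩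
  · exact ⟨congrArg fst (hb _), congrArg snd (hb _)⟩

open Classical in
theorem Phi_dual (lab : Bas Q D → Bas Q v × ℕ) (y : Kd Q → Nb Q w v D → Nb Q w v D → ℂ)
    (hy : ∀ p q, y ka p q = 0) (k : Kd Q) (p q : Nb Q w v D) :
    Phi Q (YS lab fun k p q => (inr (y k p q) : DualNumber ℂ)) k p q =
      inr (linPhi lab (fun k p q => if shS lab k p q then y k p q else 0) k p q) := by
  have h1 := fun k => (Zd_spec lab y hy k).1
  have h2 := fun k => (Zd_spec lab y hy k).2
  have key : Matrix.dualNumberEquiv (Phi Q (YS lab fun k p q => (inr (y k p q) : DualNumber ℂ)) k) =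
      inr (linPhi lab (fun k p q => if shS lab k p q then y k p q else 0) k) := by
    simp only [Zd] at h1 h2
    rcases k with (ε | _ | _) | (ε | _ | _) <;> refine TrivSqZeroExt.ext ?_ ?_ <;>
      simp only [Phi, map_sub, map_add, map_mul, map_sum, map_neg, fst_mul, fst_add, fst_sub,
        fst_sum, fst_neg, DualNumber.snd_mul, snd_add, snd_sub, snd_sum, snd_neg, h1, h2] <;>
      simp [linPhi, YS, ← ite_and]
  exact TrivSqZeroExt.ext (congrFun (congrFun (congrArg fst key) p) q)
    (congrFun (congrFun (congrArg snd key) p) q)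

variable {J : Type} [Fintype J] [DecidableEq J]

theorem ofM_gg {A : Type} (M : Kd Q → Nb Q w v D → Nb Q w v D → A) (t e : J → A) (k : Kd Q)
    (p q : Nb Q w v D) : ofM M t e (gg k p q) = M k p q := by
  rcases k with k | k <;> rfl

open Classical in
/-- The value of `dS` on a tangent vector. -/
theorem dS_dual (hD : DSqStmt) (lab : Bas Q D → Bas Q v × ℕ) (y : Ix Q w v D J ⊕ Ix Q w v D J → ℂ)
    (hy : ∀ p q, y (gg ka p q) = 0) {k : Kd Q} {p q : Nb Q w v D} (h : shS lab k p q) :
    lift (fun g => (inr (y g) : DualNumber ℂ)) (dS lab (gg k p q) one) =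
      inr (linPhi lab (fun k p q => if shS lab k p q then y (gg k p q) else 0) k p q) := by
  obtain ⟨Y, hY⟩ : ∃ Y : Kd Q → Nb Q w v D → Nb Q w v D → (wordsA : Subalgebra ℂ (OpQ Q w v D J)),
      ∀ k p q, (Y k p q).1 = gn (gg k p q) :=
    ⟨fun k p q => ⟨gn (gg k p q), gn_mem_words (P := fun _ => True) trivial⟩, fun _ _ _ => rfl⟩
  have h1 := Phi_map hD (Subalgebra.val wordsA) lab Y k p q
  have h2 := Phi_map hD (liftA (rho_comm y)) lab Y k p q
  have h4 : (fun k p q => liftA (rho_comm y) (Y k p q)) = fun k p q => inr (y (gg k p q)) := by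
    funext k p q
    change lift _ ((Y k p q).1 one) = _
    rw [hY, lift_gn (rho_comm y), lift_one, mul_one]
  simp only [Subalgebra.val_apply, hY] at h1
  rw [dS, ofM_gg, if_pos h, ← h1, ← Phi_dual lab (fun k p q => y (gg k p q)) hy, ← h4, ← h2]
  rfl

theorem linS : DSqStmt → SlFStmt → LinSStmt := by
  intro hD hS Q w v D J _ _ d lab hl
  have hG := (hS Q w v D J (Equiv.refl _) d lab 0 hl (fun _ => rfl) fun _ _ _ => rfl).1 0 0
    fun j => pol_mem.2 fun m hm => absurd rfl hm
  have hg : ∀ g : Ix Q w v D J ⊕ Ix Q w v D J, AlS lab g → ∃ k p q, shS lab k p q ∧ g = gg k p q := by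
    rintro ((⟨τ, p, q⟩ | j) | (⟨τ, p, q⟩ | j)) h
    exacts [⟨.inl τ, p, q, h, rfl⟩, h.elim, ⟨.inr τ, p, q, h, rfl⟩, h.elim]
  have h1 : ∀ g, dS (w := w) (J := J) lab g - lin (fun g' => cf (dr g' (dS lab g one))) ∈
      words fun μ => 2 ≤ ∑ g', μ g' := fun g => by
    have h0 : cf (dS (w := w) (J := J) lab g one) = 0 := by
      by_cases h : AlS lab g
      · obtain ⟨k, p, q, hk, rfl⟩ := hg g h
        have := congrArg fst ((lift_dual 0 (hG.dw _)).symm.trans
          (dS_dual hD lab 0 (fun _ _ => rfl) hk))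
        simpa using this
      · rw [hG.dz g h, LinearMap.zero_apply, map_zero]
    have := expand (hG.dw g)
    rwa [h0, zero_smul, sub_zero] at this
  refine ⟨h1, ?_, fun g g' h => ⟨?_, ?_⟩, fun y k p q hk hy => ?_⟩
  · ext g g'
    exact lin_sq hG.sq h1 g g'
  · by_contra h2
    exact h (by simp [d0, hG.dz g h2])
  · by_contra h2
    refine h ?_
    rw [d0, dr_eq_zero g' (mono_le (fun μ hμ => of_not_not fun h3 => h2 (hμ.1 g' h3))
      (words_one_mem (hG.dw g)))]
    rfl
  · have := congrArg snd ((lift_dual y (hG.dw _)).symm.trans (dS_dual hD lab y hy hk))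
    rw [snd_add, TrivSqZeroExt.snd_inl, zero_add] at this
    exact this

end Pool.Agent.MP_8be872_ag.H36
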